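import Pool.Agent.N325.DD.UB

/-! DD3/B: the grid dynamic programme bounds the class maxima (helper555). -/

set_option autoImplicit false

namespace Pool.Agent.N555.DD

open Finset Pool.Agent.N325.DD

/-- no cell lies below two other cells -/
def AdmB (B : Finset (ℕ × ℕ)) : Prop :=
  ∀ x ∈ B, ∀ y ∈ B, ∀ z ∈ B, x ≠ y → x ≠ z → y ≠ z →
    ¬ ((x.1 ≤ y.1 ∧ x.2 ≤ y.2) ∧ (x.1 ≤ z.1 ∧ x.2 ≤ z.2))

/-- the number of the cells in the upper right quadrant -/
def Nc (B : Finset (ℕ × ℕ)) (c k : ℕ) : ℕ := (B.filter fun x => c ≤ x.1 ∧ k ≤ x.2).card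

/-- the state `s` is valid -/
def Valid (B : Finset (ℕ × ℕ)) (c s : ℕ) : Prop :=
  (∀ k, Nc B c k ≤ 1 → s / 2 ≤ k) ∧ (∀ k, Nc B c k = 0 → s / 2 + s % 2 ≤ k)

/-- the heights of the columns -/
def Ht (B : Finset (ℕ × ℕ)) : List ℕ → Prop
  | [] => True
  | h :: hs => (∀ x ∈ B, x.1 = hs.length → x.2 < h) ∧ Ht B hs

theorem Nc_succ (B : Finset (ℕ × ℕ)) (i k : ℕ) :
    Nc B i k = Nc B (i + 1) k + ((B.filter fun x => x.1 = i).filter fun x => k ≤ x.2).card := by
  unfold Nc
  rw [← card_union_of_disjoint]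
  · congr 1
    ext x
    simp only [mem_filter, mem_union]
    constructor
    · rintro ⟨h1, h2, h3⟩
      by_cases h : x.1 = i
      · exact Or.inr ⟨⟨h1, h⟩, h3⟩
      · exact Or.inl ⟨h1, by omega, h3⟩
    · rintro (⟨h1, h2, h3⟩ | ⟨⟨h1, h2⟩, h3⟩)
      · exact ⟨h1, by omega, h3⟩
      · exact ⟨h1, by omega, h3⟩
  · rw [disjoint_left]
    intro x h1 h2
    simp only [mem_filter] at h1 h2
    omega

theorem card_lt_succ (B : Finset (ℕ × ℕ)) (i : ℕ) :
    (B.filter fun x => x.1 < i + 1).card =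
      (B.filter fun x => x.1 < i).card + (B.filter fun x => x.1 = i).card := by
  rw [← card_union_of_disjoint]
  · congr 1
    ext x
    simp only [mem_filter, mem_union]
    constructor
    · rintro ⟨h1, h2⟩
      by_cases h : x.1 = i
      · exact Or.inr ⟨h1, h⟩
      · exact Or.inl ⟨h1, by omega⟩
    · rintro (⟨h1, h2⟩ | ⟨h1, h2⟩)
      · exact ⟨h1, by omega⟩
      · exact ⟨h1, by omega⟩
  · rw [disjoint_left]
    intro x h1 h2
    simp only [mem_filter] at h1 h2
    omega

theorem col_le_two {B : Finset (ℕ × ℕ)} (hB : AdmB B) (i : ℕ) :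
    (B.filter fun x => x.1 = i).card ≤ 2 := by
  by_contra hcon
  push Not at hcon
  obtain ⟨a, ha, b, hb, c, hc, hab, hac, hbc⟩ := two_lt_card.1 hcon
  simp only [mem_filter] at ha hb hc
  rcases le_total a.2 b.2 with h1 | h1 <;> rcases le_total a.2 c.2 with h2 | h2 <;>
    rcases le_total b.2 c.2 with h3 | h3
  · exact hB a ha.1 b hb.1 c hc.1 hab hac hbc ⟨⟨by omega, h1⟩, ⟨by omega, h2⟩⟩
  · exact hB a ha.1 b hb.1 c hc.1 hab hac hbc ⟨⟨by omega, h1⟩, ⟨by omega, h2⟩⟩
  · exact hB c hc.1 a ha.1 b hb.1 hac.symm hbc.symm hab ⟨⟨by omega, h2⟩, ⟨by omega, by omega⟩⟩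
  · exact hB c hc.1 a ha.1 b hb.1 hac.symm hbc.symm hab ⟨⟨by omega, h2⟩, ⟨by omega, h3⟩⟩
  · exact hB b hb.1 a ha.1 c hc.1 hab.symm hbc hac ⟨⟨by omega, h1⟩, ⟨by omega, h3⟩⟩
  · exact hB b hb.1 a ha.1 c hc.1 hab.symm hbc hac ⟨⟨by omega, h1⟩, ⟨by omega, by omega⟩⟩
  · exact hB b hb.1 a ha.1 c hc.1 hab.symm hbc hac ⟨⟨by omega, h1⟩, ⟨by omega, h3⟩⟩
  · exact hB c hc.1 a ha.1 b hb.1 hac.symm hbc.symm hab ⟨⟨by omega, h2⟩, ⟨by omega, h3⟩⟩

theorem core {B : Finset (ℕ × ℕ)} (hB : AdmB B) : ∀ (hs : List ℕ) (s : ℕ), Ht B hs →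
    Valid B hs.length s → (B.filter fun x => x.1 < hs.length).card ≤ V hs s := by
  intro hs
  induction hs with
  | nil =>
    intro s _ _
    simp
  | cons h hs ih =>
    intro s hht hv
    obtain ⟨hh, hht'⟩ := hht
    rw [List.length_cons] at hv ⊢
    set i := hs.length with hi
    rw [card_lt_succ]
    have hV1 : V hs s ≤ V (h :: hs) s := le_max_left _ _
    have hV2 : s / 2 < h → 1 + V hs (s + 1) ≤ V (h :: hs) s := by
      intro h1
      refine le_trans ?_ ((le_max_left _ _).trans (le_max_right _ _))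
      rw [if_pos h1]
    have hV3 : s / 2 + 1 + s % 2 < h → 2 + V hs (s + 3 + s % 2) ≤ V (h :: hs) s := by
      intro h1
      refine le_trans ?_ ((le_max_right _ _).trans (le_max_right _ _))
      rw [if_pos h1]
    have h2 := col_le_two hB i
    have hJ : ∀ x ∈ (B.filter fun x => x.1 = i), x ∈ B ∧ x.1 = i ∧ x.2 < h := by
      intro x hx
      rw [mem_filter] at hx
      exact ⟨hx.1, hx.2, hh x hx.1 hx.2⟩
    have hN := Nc_succ B i
    obtain h0 | h1 | h2 : (B.filter fun x => x.1 = i).card = 0 ∨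
      (B.filter fun x => x.1 = i).card = 1 ∨ (B.filter fun x => x.1 = i).card = 2 := by omega
    · have hvi : Valid B i s := by
        rw [card_eq_zero] at h0
        refine ⟨fun k hk => hv.1 k ?_, fun k hk => hv.2 k ?_⟩
        · have := hN k
          omega
        · have := hN k
          omega
      have := ih s hht' hvi
      omega
    · obtain ⟨a, ha⟩ := card_eq_one.1 h1
      obtain ⟨haB, hai, hah⟩ := hJ a (by rw [ha]; exact mem_singleton_self a)
      rw [ha] at hN
      have hN1 : Nc B (i + 1) a.2 ≤ 1 := by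
        by_contra hcon
        push Not at hcon
        obtain ⟨y, hy, z, hz, hyz⟩ := one_lt_card.1 hcon
        simp only [mem_filter] at hy hz
        refine hB a haB y hy.1 z hz.1 ?_ ?_ hyz ⟨⟨by omega, hy.2.2⟩, ⟨by omega, hz.2.2⟩⟩
        · rintro rfl
          omega
        · rintro rfl
          omega
      have hsa := hv.1 _ hN1
      have hNa : ∀ k, Nc B i k = Nc B (i + 1) k + if k ≤ a.2 then 1 else 0 := by
        intro k
        rw [hN k, filter_singleton]
        split_ifs <;> simp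
      have hvi : Valid B i (s + 1) := by
        refine ⟨fun k hk => ?_, fun k hk => ?_⟩
        · rw [hNa k] at hk
          split_ifs at hk with hka
          · have := hv.2 k (by omega)
            omega
          · omega
        · rw [hNa k] at hk
          split_ifs at hk with hka
          have := hv.2 k (by omega)
          omega
      have h3 := ih (s + 1) hht' hvi
      have h4 := hV2 (by omega)
      omega
    · obtain ⟨a, b, hab, hJab⟩ := card_eq_two.1 h2
      have key : ∀ a b : ℕ × ℕ, a ≠ b → (B.filter fun x => x.1 = i) = {a, b} → a.2 < b.2 →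
          (B.filter fun x => x.1 < i).card + 2 ≤ V (h :: hs) s := by
        intro a b hab hJab hlt
        obtain ⟨haB, hai, hah⟩ := hJ a (by rw [hJab]; simp)
        obtain ⟨hbB, hbi, hbh⟩ := hJ b (by rw [hJab]; simp)
        have hN0 : Nc B (i + 1) a.2 = 0 := by
          by_contra hcon
          obtain ⟨y, hy⟩ := card_pos.1 (Nat.pos_of_ne_zero hcon)
          simp only [mem_filter] at hy
          refine hB a haB b hbB y hy.1 hab ?_ ?_ ⟨⟨by omega, hlt.le⟩, ⟨by omega, hy.2.2⟩⟩
          · rintro rfl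
            omega
          · rintro rfl
            omega
        have hsa := hv.2 _ hN0
        have hNa : ∀ k, Nc B i k = Nc B (i + 1) k + ((if k ≤ a.2 then 1 else 0) +
            if k ≤ b.2 then 1 else 0) := by
          intro k
          rw [hN k, hJab, filter_insert, filter_singleton]
          split_ifs with c1 c2 c2
          · rw [card_pair hab]
          · simp
          · simp
          · simp
        have hvi : Valid B i (s + 3 + s % 2) := by
          refine ⟨fun k hk => ?_, fun k hk => ?_⟩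
          · rw [hNa k] at hk
            split_ifs at hk <;> omega
          · rw [hNa k] at hk
            split_ifs at hk <;> omega
        have h3 := ih _ hht' hvi
        have h4 := hV3 (by omega)
        omega
      rw [h2]
      have hne : a.2 ≠ b.2 := by
        intro he
        apply hab
        obtain ⟨-, hai, -⟩ := hJ a (by rw [hJab]; simp)
        obtain ⟨-, hbi, -⟩ := hJ b (by rw [hJab]; simp)
        exact Prod.ext (hai.trans hbi.symm) he
      rcases lt_or_gt_of_ne hne with hl | hl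
      · exact key a b hab hJab hl
      · exact key b a hab.symm (by rw [hJab, pair_comm]) hl

theorem eq_two_three {s : ℕ} (h1 : 1 ≤ s) (h : ∀ p : ℕ, p.Prime → p ∣ s → p < 4) :
    s = 2 ^ s.factorization 2 * 3 ^ s.factorization 3 := by
  apply Nat.eq_of_factorization_eq (by omega) (by positivity)
  intro p
  rw [Nat.factorization_mul (by positivity) (by positivity), Nat.Prime.factorization_pow
    Nat.prime_two, Nat.Prime.factorization_pow Nat.prime_three, Finsupp.add_apply]
  by_cases hp2 : p = 2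
  · subst hp2
    simp
  · by_cases hp3 : p = 3
    · subst hp3
      simp
    · rw [Finsupp.single_eq_of_ne (by omega), Finsupp.single_eq_of_ne (by omega)]
      by_cases hp : p.Prime
      · apply Nat.factorization_eq_zero_of_not_dvd
        intro hd
        have h4 := h p hp hd
        have h5 := hp.two_le
        omega
      · exact Nat.factorization_eq_zero_of_not_prime s hp

theorem ht_of {hi : ℕ} {B : Finset (ℕ × ℕ)} (hB : ∀ x ∈ B, 2 ^ x.1 * 3 ^ x.2 < hi) :
    ∀ hs : List ℕ, chkH hi hs = true → Ht B hs := by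
  intro hs
  induction hs with
  | nil => intro _; trivial
  | cons h hs ih =>
    intro hc
    simp only [chkH, Bool.and_eq_true, Nat.ble_eq] at hc
    refine ⟨fun x hx hxi => ?_, ih hc.2⟩
    have h1 := hB x hx
    rw [hxi] at h1
    have h2 : 2 ^ hs.length * 3 ^ x.2 < 2 ^ hs.length * 3 ^ h := lt_of_lt_of_le h1 hc.1
    have h3 : 3 ^ x.2 < 3 ^ h := Nat.lt_of_mul_lt_mul_left h2
    exact (Nat.pow_lt_pow_iff_right (by norm_num)).1 h3

theorem grid (hi : ℕ) (hs : List ℕ) (h0 : hi ≤ 2 ^ hs.length) (h1 : chkH hi hs = true) (q : ℕ)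
    (hq : q < hi) : mx (W 4 q) ≤ V hs 0 := by
  obtain ⟨A, hA, hAd, hc⟩ := exists_mx (W 4 q)
  have hA' : ∀ s ∈ A, s = 2 ^ s.factorization 2 * 3 ^ s.factorization 3 ∧ s < hi := by
    intro s hs
    obtain ⟨⟨h2, h3⟩, h4⟩ := mem_W.1 (hA hs)
    exact ⟨eq_two_three h2 h4, by omega⟩
  set φ : ℕ → ℕ × ℕ := fun s => (s.factorization 2, s.factorization 3) with hφ
  have hinj : Set.InjOn φ A := by
    intro s hs t ht hst
    simp only [hφ, Prod.mk.injEq] at hst
    have h4 := (hA' s hs).1
    have h5 := (hA' t ht).1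
    rw [hst.1, hst.2] at h4
    exact h4.trans h5.symm
  have hB : AdmB (A.image φ) := by
    intro x hx y hy z hz hxy hxz hyz hd
    obtain ⟨s, hs, rfl⟩ := mem_image.1 hx
    obtain ⟨t, ht, rfl⟩ := mem_image.1 hy
    obtain ⟨u, hu, rfl⟩ := mem_image.1 hz
    refine hAd s hs t ht u hu (fun e => hxy (by rw [e])) (fun e => hxz (by rw [e]))
      (fun e => hyz (by rw [e])) ⟨?_, ?_⟩
    · rw [(hA' s hs).1, (hA' t ht).1]
      exact mul_dvd_mul (pow_dvd_pow _ hd.1.1) (pow_dvd_pow _ hd.1.2)
    · rw [(hA' s hs).1, (hA' u hu).1]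
      exact mul_dvd_mul (pow_dvd_pow _ hd.2.1) (pow_dvd_pow _ hd.2.2)
  have hlt : ∀ x ∈ A.image φ, 2 ^ x.1 * 3 ^ x.2 < hi := by
    intro x hx
    obtain ⟨s, hs, rfl⟩ := mem_image.1 hx
    have := hA' s hs
    rw [← this.1]
    exact this.2
  have hcol : ((A.image φ).filter fun x => x.1 < hs.length) = A.image φ := by
    apply filter_true_of_mem
    intro x hx
    have h2 := hlt x hx
    have h3 : 2 ^ x.1 ≤ 2 ^ x.1 * 3 ^ x.2 := Nat.le_mul_of_pos_right _ (by positivity)
    exact (Nat.pow_lt_pow_iff_right (by norm_num)).1 (lt_of_le_of_lt h3 (lt_of_lt_of_le h2 h0))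
  have h5 := core hB hs 0 (ht_of hlt hs h1) ⟨fun k _ => by omega, fun k _ => by omega⟩
  rw [hcol, card_image_of_injOn hinj, hc] at h5
  exact h5

end Pool.Agent.N555.DD
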